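import Pool.Agent.Helper29.MX.St

/-! THE CLASS OF ALL SYSTEMS has all closure properties of the chapter MAX. -/

set_option autoImplicit false

namespace Pool.Agent.Helper21.MX

open Finset Filter Topology Pool.Agent.Helper69.RK Pool.Agent.Helper31.EC Pool.Agent.Helper31.EC.Sp
open Pool.Agent.Helper40.EL Pool.Agent.Helper89.LX Pool.Agent.Helper84.MT
open Pool.Agent.Helper49.MD Pool.Agent.Helper36.AM Pool.Agent.Helper29.MX

noncomputable section

/-- diagonals of systems are systems -/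
theorem dg_top {M : ℕ} {E : ℕ → ℕ} {ι : Type} [Finite ι] :
    DiagCl (lft fun (S : Sp) (_ : MSys S M E ι) => True) :=
  (isM_diagCl (M := M) (E := E) (ι := ι)).mono (fun _ _ _ h => by
    obtain ⟨s, hs, _⟩ := h
    exact ⟨s, hs⟩) fun _ _ h => by
    obtain ⟨s, hs⟩ := h
    exact ⟨s, hs, trivial⟩

theorem okA_top (N : ℕ) : OkA N (top N) where
  im := fun _ _ _ _ _ _ _ _ _ => trivial
  trn := fun _ _ _ _ _ _ _ _ => trivial
  pnt := fun _ _ _ _ _ _ _ => trivial
  add := fun _ _ _ _ _ _ _ _ _ _ _ _ _ => trivial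
  bas := fun _ _ _ _ _ _ _ => trivial
  sub := Pool.Agent.Helper80.SUB.subCl_top N

theorem nul_hs {S : Sp} (W : Rsl S) : Nul S (fun k => h (fc (W k)) (fc (W k))) := by
  have e : (fun k => h (fc (W k)) (fc (W k)) / (S.F k).n) = fun _ => (0 : ℝ) := by
    funext k
    rw [h_self, zero_div]
  unfold Nul
  rw [e]
  exact tendsto_const_nhds

theorem okc_top (N : ℕ) : Okc N (top N) (fun _ => top N) where
  oA := okA_top N
  le := fun _ _ _ _ _ _ => trivial
  im := fun _ _ _ _ _ _ _ _ _ _ => trivial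
  dg := fun _ _ _ => dg_top
  trn := fun _ _ _ _ _ _ _ _ _ => trivial
  pnt := fun _ _ _ _ _ _ _ _ => trivial
  add := fun _ _ _ _ _ _ _ _ _ _ _ _ _ _ => trivial
  bas := fun _ _ _ _ _ _ _ _ => trivial
  zoom := fun _ _ _ D0 => ⟨D0, fun _ _ _ _ _ z _ W hD hW hK hF _ =>
    ⟨z, W, hW, Eventually.of_forall fun _ => le_rfl, nul_hs W, rfl, rfl, rfl, hK, hF, trivial, id, hD, fun _ _ _ h => h⟩⟩

theorem ent_top (N : ℕ) : Ent (top N) (fun _ => top N) := fun _ _ _ _ _ _ _ => ⟨0, trivial⟩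

theorem ocl_top (N : ℕ) : Ocl N (top N) (top N) where
  le := fun _ _ _ _ _ => trivial
  im := fun _ _ _ _ _ _ _ _ _ => trivial
  pull := fun _ _ _ _ _ _ _ => trivial
  trn := fun _ _ _ _ _ _ _ _ => trivial
  dg := fun _ _ => dg_top

theorem okd_top (N : ℕ) : Okd N (top N) (fun _ => top N) (top N) (fun _ _ => top N) where
  le := fun _ _ _ _ _ _ _ => trivial
  im := fun _ _ _ _ _ _ _ _ _ _ _ => trivial
  dg := fun _ _ _ _ => dg_top
  trn := fun _ _ _ _ _ _ _ _ _ _ => trivial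
  zoom := fun _ _ _ _ _ _ _ _ _ _ _ _ _ _ _ _ _ _ _ _ _ => trivial
  tay := fun _ _ _ _ _ _ _ _ _ _ => trivial
  aux := ⟨top N, fun _ _ => top N, okA_top N, fun _ _ => ocl_top N, fun _ _ _ _ _ _ _ => trivial,
    fun _ _ _ _ _ _ _ _ => trivial, fun _ h => h⟩
  prm := fun _ _ _ _ _ _ _ _ _ _ _ _ _ => trivial

/-- **okT** -/
theorem okT (N : ℕ) : okM N (top N) (top N) := fun _ h =>
  ⟨top N, fun _ => top N, fun _ _ => top N, okc_top N, ent_top N, okd_top N, h⟩

end

end Pool.Agent.Helper21.MX
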